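import Pool.Agent.W659.FK.Stm

/-! FK-HOM: places of degree at most two of a number field. -/

set_option autoImplicit false

namespace W580.FK

open NumberField

/-- the number field generated by real and imaginary parts -/
lemma real_field (K : Type) [Field K] [NumberField K] (s : K →+* ℂ) :
    ∃ M : IntermediateField ℚ ℝ, FiniteDimensional ℚ M ∧
      ∀ x : K, (s x).re ∈ M ∧ (s x).im ∈ M := by
  classical
  set B := Module.finBasis ℚ K
  set S : Set ℝ := (Set.range fun j => (s (B j)).re) ∪ (Set.range fun j => (s (B j)).im) with hS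
  have hSf : S.Finite := (Set.finite_range _).union (Set.finite_range _)
  have hint : ∀ x : K, IsIntegral ℚ (s x) := by
    intro x
    have h := (Algebra.IsIntegral.isIntegral (R := ℚ) x)
    exact h.map (RingHom.toRatAlgHom s)
  have hintc : ∀ x : K, IsIntegral ℚ ((starRingEnd ℂ) (s x)) := by
    intro x
    have h := (Algebra.IsIntegral.isIntegral (R := ℚ) x)
    exact h.map (RingHom.toRatAlgHom ((starRingEnd ℂ).comp s))
  have hI : IsIntegral ℚ Complex.I := by
    refine ⟨Polynomial.X ^ 2 + 1, by monicity!, ?_⟩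
    simp
  have hre : ∀ x : K, IsIntegral ℚ (s x).re := by
    intro x
    rw [← isIntegral_algebraMap_iff (B := ℂ) (algebraMap ℝ ℂ).injective]
    have h1 : (algebraMap ℝ ℂ) (s x).re = algebraMap ℚ ℂ (1/2) * (s x + (starRingEnd ℂ) (s x)) := by
      rw [Complex.add_conj]; simp
    rw [h1]
    exact isIntegral_algebraMap.mul ((hint x).add (hintc x))
  have him : ∀ x : K, IsIntegral ℚ (s x).im := by
    intro x
    rw [← isIntegral_algebraMap_iff (B := ℂ) (algebraMap ℝ ℂ).injective]
    have h1 : (algebraMap ℝ ℂ) (s x).im =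
        algebraMap ℚ ℂ (1/2) * (-Complex.I * (s x - (starRingEnd ℂ) (s x))) := by
      rw [Complex.sub_conj]
      simp
      linear_combination (((s x).im : ℂ)) * Complex.I_mul_I
    rw [h1]
    exact isIntegral_algebraMap.mul (hI.neg.mul ((hint x).sub (hintc x)))
  refine ⟨IntermediateField.adjoin ℚ S, ?_, ?_⟩
  · have : Finite S := hSf
    refine IntermediateField.finiteDimensional_adjoin ?_
    rintro x (⟨j, rfl⟩ | ⟨j, rfl⟩)
    · exact hre _
    · exact him _
  · intro x
    have hx : x ∈ Submodule.span ℚ (Set.range B) := by rw [B.span_eq]; trivial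
    induction hx using Submodule.span_induction with
    | mem x h =>
      obtain ⟨j, rfl⟩ := h
      exact ⟨IntermediateField.subset_adjoin _ _ (Or.inl ⟨j, rfl⟩),
        IntermediateField.subset_adjoin _ _ (Or.inr ⟨j, rfl⟩)⟩
    | zero => simp
    | add x y _ _ hx hy =>
      rw [map_add]
      exact ⟨by rw [Complex.add_re]; exact add_mem hx.1 hy.1,
        by rw [Complex.add_im]; exact add_mem hx.2 hy.2⟩
    | smul c x _ hx =>
      have h1 : s (c • x) = ((c : ℝ) : ℂ) * s x := by
        rw [Algebra.smul_def, map_mul]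
        congr 1
        simp
      rw [h1, Complex.re_ofReal_mul, Complex.im_ofReal_mul]
      have h2 : (c : ℝ) ∈ IntermediateField.adjoin ℚ S := by
        have := (IntermediateField.adjoin ℚ S).algebraMap_mem c
        simpa using this
      exact ⟨mul_mem h2 hx.1, mul_mem h2 hx.2⟩

theorem main : Pool.Agent.W659.FK.S_HOM := by
  intro K _ _
  obtain ⟨s⟩ : Nonempty (K →+* ℂ) := inferInstance
  obtain ⟨M, hM, hmem⟩ := real_field K s
  have : NumberField M := { to_charZero := inferInstance, to_finiteDimensional := hM }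
  refine ⟨M, inferInstance, this, ?_, ?_, ?_⟩
  · rintro ⟨x, hx⟩
    have : ((x : ℝ)) ^ 2 = -1 := by exact_mod_cast congrArg (fun y : M => (y : ℝ)) hx
    nlinarith [sq_nonneg (x : ℝ)]
  · rintro ⟨x, hx⟩
    have : ((x : ℝ)) ^ 2 = -3 := by
      have h3 : ((-3 : M) : ℝ) = -3 := by push_cast; rfl
      have := congrArg (fun y : M => (y : ℝ)) hx
      rw [← h3]
      exact this
    nlinarith [sq_nonneg (x : ℝ)]
  intro p hp hp4 ⟨ψ⟩
  classical
  -- integrality
  have hint : ∀ x : 𝓞 K, IsIntegral ℤ (s x) := fun x =>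
    x.isIntegral_coe.map s.toIntAlgHom
  have hintc : ∀ x : 𝓞 K, IsIntegral ℤ ((starRingEnd ℂ) (s x)) := fun x =>
    x.isIntegral_coe.map ((starRingEnd ℂ).comp s).toIntAlgHom
  have hI : IsIntegral ℤ Complex.I := by
    refine ⟨Polynomial.X ^ 2 + 1, by monicity!, ?_⟩
    simp
  let aM : K → M := fun x => ⟨2 * (s x).re, mul_mem (by simp) (hmem x).1⟩
  let bM : K → M := fun x => ⟨2 * (s x).im, mul_mem (by simp) (hmem x).2⟩
  have haM : ∀ x : 𝓞 K, IsIntegral ℤ (aM x) := by
    intro x
    rw [← isIntegral_algebraMap_iff (B := ℝ) (algebraMap M ℝ).injective,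
      ← isIntegral_algebraMap_iff (B := ℂ) (algebraMap ℝ ℂ).injective]
    have h1 : (algebraMap ℝ ℂ) (algebraMap M ℝ (aM x)) = s x + (starRingEnd ℂ) (s x) := by
      rw [Complex.add_conj]; rfl
    rw [h1]
    exact (hint x).add (hintc x)
  have hbM : ∀ x : 𝓞 K, IsIntegral ℤ (bM x) := by
    intro x
    rw [← isIntegral_algebraMap_iff (B := ℝ) (algebraMap M ℝ).injective,
      ← isIntegral_algebraMap_iff (B := ℂ) (algebraMap ℝ ℂ).injective]
    have h1 : (algebraMap ℝ ℂ) (algebraMap M ℝ (bM x)) =
        -Complex.I * (s x - (starRingEnd ℂ) (s x)) := by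
      rw [Complex.sub_conj]
      have : (algebraMap ℝ ℂ) (algebraMap M ℝ (bM x)) = ((2 * (s x).im : ℝ) : ℂ) := rfl
      rw [this]
      linear_combination ((((2 * (s x).im : ℝ)) : ℂ)) * Complex.I_mul_I
    rw [h1]
    exact hI.neg.mul ((hint x).sub (hintc x))
  let a : 𝓞 K → 𝓞 M := fun x => ⟨aM x, haM x⟩
  let b : 𝓞 K → 𝓞 M := fun x => ⟨bM x, hbM x⟩
  -- the finite field with `p ^ 2` elements
  set F := GaloisField p 2 with hF
  have : Finite F := inferInstance
  have : Fintype F := Fintype.ofFinite F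
  have hcF : Nat.card F = p ^ 2 := GaloisField.card p 2 (by norm_num)
  obtain ⟨i, hi⟩ : ∃ i : F, i * i = -1 := by
    have h : IsSquare (-1 : F) := by
      rw [FiniteField.isSquare_neg_one_iff, ← Nat.card_eq_fintype_card, hcF, Nat.pow_mod, hp4]
      norm_num
    obtain ⟨i, hi⟩ := h
    exact ⟨i, hi.symm⟩
  have h2 : (2 : F) ≠ 0 := by
    have : CharP F p := inferInstance
    intro h
    have h' : ((2 : ℕ) : F) = 0 := by exact_mod_cast h
    rw [CharP.cast_eq_zero_iff F p] at h'
    have h3 := Nat.le_of_dvd (by norm_num) h'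
    have h4 := hp.out.two_le
    omega
  set ι : 𝓞 M →+* F := (algebraMap (ZMod p) F).comp ψ with hι
  have e1 : ∀ x y : 𝓞 K, a (x + y) = a x + a y := by
    intro x y
    ext
    change 2 * (s ((x + y : 𝓞 K) : K)).re = 2 * (s x).re + 2 * (s y).re
    simp [mul_add]
  have e2 : ∀ x y : 𝓞 K, b (x + y) = b x + b y := by
    intro x y
    ext
    change 2 * (s ((x + y : 𝓞 K) : K)).im = 2 * (s x).im + 2 * (s y).im
    simp [mul_add]
  have e3 : ∀ x y : 𝓞 K, 2 * a (x * y) = a x * a y - b x * b y := by
    intro x y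
    ext
    change 2 * (2 * (s ((x * y : 𝓞 K) : K)).re) =
      (2 * (s x).re) * (2 * (s y).re) - (2 * (s x).im) * (2 * (s y).im)
    simp
    ring
  have e4 : ∀ x y : 𝓞 K, 2 * b (x * y) = a x * b y + b x * a y := by
    intro x y
    ext
    change 2 * (2 * (s ((x * y : 𝓞 K) : K)).im) =
      (2 * (s x).re) * (2 * (s y).im) + (2 * (s x).im) * (2 * (s y).re)
    simp
    ring
  have e5 : a 1 = 2 := by
    ext
    change 2 * (s ((1 : 𝓞 K) : K)).re = 2
    simp
  have e6 : b 1 = 0 := by
    ext
    change 2 * (s ((1 : 𝓞 K) : K)).im = 0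
    simp
  have e7 : a 0 = 0 := by
    ext
    change 2 * (s ((0 : 𝓞 K) : K)).re = 0
    simp
  have e8 : b 0 = 0 := by
    ext
    change 2 * (s ((0 : 𝓞 K) : K)).im = 0
    simp
  let Φ : 𝓞 K →+* F :=
    { toFun := fun x => (ι (a x) + i * ι (b x)) / 2
      map_one' := by
        have h3 : ι 2 = 2 := map_ofNat ι 2
        rw [e5, e6, h3, map_zero, mul_zero, add_zero, div_self h2]
      map_zero' := by
        rw [e7, e8]
        simp
      map_add' := by
        intro x y
        rw [e1, e2, map_add, map_add]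
        ring
      map_mul' := by
        intro x y
        have h3 := congrArg ι (e3 x y)
        have h4 := congrArg ι (e4 x y)
        simp only [map_mul, map_sub, map_add, map_ofNat] at h3 h4
        have h22 : (2 : F) * 2 ≠ 0 := mul_ne_zero h2 h2
        change (ι (a (x * y)) + i * ι (b (x * y))) / 2 =
          (ι (a x) + i * ι (b x)) / 2 * ((ι (a y) + i * ι (b y)) / 2)
        rw [div_mul_div_comm, div_eq_div_iff h2 h22]
        linear_combination 2 * h3 + 2 * i * h4 - 2 * ι (b x) * ι (b y) * hi }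
  let k := Φ.range
  have : Finite k := inferInstance
  have : Fintype k := Fintype.ofFinite k
  let _ : Field k := Fintype.fieldOfDomain k
  have hdvd : Nat.card k ∣ p ^ 2 := by
    rw [← hcF]
    exact AddSubgroup.card_addSubgroup_dvd_card Φ.range.toAddSubgroup
  have hcard : Nat.card k = p ∨ Nat.card k = p ^ 2 := by
    obtain ⟨j, hj, hj'⟩ := (Nat.dvd_prime_pow hp.out).1 hdvd
    interval_cases j
    · exfalso
      have : 1 < Nat.card k := Finite.one_lt_card
      rw [hj'] at this
      simp at this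
    · left; simpa using hj'
    · right; exact hj'
  refine ⟨k, inferInstance, inferInstance, ?_, ?_⟩
  · rw [← Nat.card_eq_fintype_card]; exact hcard
  · refine ⟨?_, ?_⟩
    · exact Φ.rangeRestrict
    · exact Φ.rangeRestrict_surjective

end W580.FK
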